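import Mathlib
import Pool.Agent.Work.MP_146c52_ag.Gen

set_option autoImplicit false

namespace Pool.Agent.Results.MP_146c52_ag.EveryField

open TensorProduct

universe u

/-- `R` is a one-dimensional Noetherian local domain. -/
structure OneDimLocalDomain (R : Type u) [CommRing R] : Prop where
  isDomain : IsDomain R
  isLocal : IsLocalRing R
  isNoeth : IsNoetherianRing R
  dim : ringKrullDim R = 1

/-- The dual module `M^* = Hom_R(M, R)`. -/
abbrev DualMod (R M : Type u) [CommRing R] [AddCommGroup M] [Module R M] : Type u := M →ₗ[R] R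

/-- `N` is torsion-free over the domain `R`: a nonzero element of `R` kills no nonzero element
of `N`. -/
def TorsionFree (R N : Type u) [CommRing R] [AddCommGroup N] [Module R N] : Prop :=
  ∀ (r : R) (x : N), r ≠ 0 → r • x = 0 → x = 0

/-- For every field `k` there is a one-dimensional Noetherian local domain `R` containing `k` and
an ideal `I` of `R` such that `I ⊗ I^*` is torsion-free, but neither `I^*` nor `I` is free. -/
theorem result (k : Type u) [Field k] :
    ∃ (R : Type u) (_ : CommRing R) (_ : Algebra k R) (I : Ideal R),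
      OneDimLocalDomain R ∧ TorsionFree R (I ⊗[R] DualMod R I) ∧
      ¬ Module.Free R (DualMod R I) ∧ ¬ Module.Free R I := by
  let ι : k →+* Work.MP_146c52_ag.G.R k :=
    (PowerSeries.C (R := k)).codRestrict (Work.MP_146c52_ag.G.R k)
      (fun a => Work.MP_146c52_ag.G.C_mem a)
  let e : Work.MP_146c52_ag.G.M k ≃ₗ[Work.MP_146c52_ag.G.R k]
      LinearMap.range (Work.MP_146c52_ag.G.toR (F := k)) :=
    LinearEquiv.ofInjective _ Work.MP_146c52_ag.G.toR_injective
  refine ⟨Work.MP_146c52_ag.G.R k, inferInstance, ι.toAlgebra,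
    LinearMap.range (Work.MP_146c52_ag.G.toR (F := k)),
    ⟨inferInstance, inferInstance, inferInstance, Work.MP_146c52_ag.G.krullDim⟩, ?_, ?_, ?_⟩
  · intro r x hr hx
    let E := TensorProduct.congr e.symm e.dualMap
    have h1 : r • E x = 0 := by rw [← map_smul, hx, map_zero]
    have h2 : E x ∈ Submodule.torsion (Work.MP_146c52_ag.G.R k)
        (Work.MP_146c52_ag.G.M k ⊗[Work.MP_146c52_ag.G.R k]
          Module.Dual (Work.MP_146c52_ag.G.R k) (Work.MP_146c52_ag.G.M k)) := by
      rw [Submodule.mem_torsion_iff]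
      exact ⟨⟨r, mem_nonZeroDivisors_of_ne_zero hr⟩, h1⟩
    rw [Work.MP_146c52_ag.G.torsion_eq_bot, Submodule.mem_bot] at h2
    exact (LinearEquiv.map_eq_zero_iff E).mp h2
  · intro h
    have h1 : Module.Free (Work.MP_146c52_ag.G.R k)
        (Module.Dual (Work.MP_146c52_ag.G.R k)
          (LinearMap.range (Work.MP_146c52_ag.G.toR (F := k)))) := h
    exact Work.MP_146c52_ag.G.not_free (Module.Free.of_equiv e.dualMap)
  · intro h
    have h1 : Module.Free (Work.MP_146c52_ag.G.R k) (Work.MP_146c52_ag.G.M k) :=
      Module.Free.of_equiv e.symm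
    exact Work.MP_146c52_ag.G.not_free (F := k) inferInstance

end Pool.Agent.Results.MP_146c52_ag.EveryField
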